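import Pool.Agent.FAE.Optimal

/-! The set `A` attached to a limit computable set, and the oracle machine which compresses. -/

set_option autoImplicit false

namespace Pool.Agent.FAE

open Filter Encodable

section

variable (g : ℕ → ℕ → Bool) (X : Set ℕ)

open Classical in
/-- The number of correct blocks of length `8` at stage `w`, at most `w`. -/
noncomputable def stg (w : ℕ) : ℕ :=
  Nat.findGreatest (fun r => ∀ i < 8 * r, g w i = decide (i ∈ X)) w

open Classical in
/-- The set `A`: the last byte of the element `b` is the first incorrect block at stage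
`b / 256`. -/
def setA : Set ℕ := {b | ∀ t < 8, b.testBit t = decide (8 * stg g X (b / 256) + t ∈ X)}

/-- The guess at stage `w` of the first `k` bits. -/
def guess (w k : ℕ) : List Bool := (List.range k).map (g w)

/-- The test of the search of the decoder. -/
def good (a : List Bool × ℕ) : Bool :=
  decide (a.1.length ≤ a.2 / 256) && decide (a.1 = guess g (a.2 / 256) a.1.length)

/-- The block which the decoder appends. -/
def blk (a : List Bool × ℕ) (β : Bool) : List Bool :=
  if β then (List.range 8).map fun t => g (a.2 / 256) (a.1.length + t)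
  else (List.range 8).map fun t => a.2.testBit t

/-- The search of the decoder. -/
noncomputable def srch (B : Set ℕ) (σ : List Bool) : Part ℕ :=
  Nat.rfind fun b => (chi B b).map fun v => decide (v = 1) && good g (σ, b)

/-- The decoder. -/
noncomputable def dec (B : Set ℕ) (p : List Bool) : Part (List Bool) :=
  Nat.rec (Part.some []) (fun y IH => IH.bind fun σ => (srch g B σ).map fun b =>
    σ ++ blk g (σ, b) (p.getD y false)) p.length

variable {g X}

theorem computable_guess (hg : Computable₂ g) : Computable₂ (guess g) := by
  have h : Computable fun q : ℕ × ℕ => (Nat.rec [] (fun i (IH : List Bool) => IH ++ [g q.1 i]) q.2 :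
      List Bool) := by
    refine Computable.nat_rec (f := fun q : ℕ × ℕ => q.2) (g := fun _ => [])
      (h := fun (q : ℕ × ℕ) (r : ℕ × List Bool) => r.2 ++ [g q.1 r.1]) Computable.snd
      (Computable.const _) ?_
    refine Computable.list_append.comp (Computable.snd.comp Computable.snd) ?_
    refine Computable.list_cons.comp (hg.comp (Computable.fst.comp Computable.fst)
      (Computable.fst.comp Computable.snd)) (Computable.const [])
  refine h.of_eq ?_
  rintro ⟨w, k⟩
  unfold guess
  induction k with
  | zero => rfl
  | succ k ih =>
    rw [List.range_succ, List.map_append, ← ih]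
    rfl

theorem computable_good (hg : Computable₂ g) : Computable (good g) := by
  unfold good
  have h1 : Computable fun a : List Bool × ℕ => a.1.length :=
    Computable.list_length.comp Computable.fst
  have h2 : Computable fun a : List Bool × ℕ => a.2 / 256 :=
    (Primrec.nat_div.comp Primrec.snd (Primrec.const 256)).to_comp
  refine Primrec.and.to_comp.comp (Primrec.nat_le.decide.to_comp.comp h1 h2) ?_
  exact Primrec.eq.decide.to_comp.comp Computable.fst ((computable_guess hg).comp h2 h1)

theorem computable_map_range8 {α : Type*} [Primcodable α] {f : α → ℕ → Bool}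
    (hf : Computable₂ f) : Computable fun a => (List.range 8).map (f a) := by
  have h : ∀ n, Computable fun a => (List.range n).map (f a) := by
    intro n
    induction n with
    | zero => exact Computable.const []
    | succ n ih =>
      have h1 : Computable fun a => (List.range n).map (f a) ++ [f a n] :=
        Computable.list_append.comp ih (Computable.list_cons.comp
          (hf.comp Computable.id (Computable.const n)) (Computable.const []))
      exact h1.of_eq fun a => by rw [List.range_succ, List.map_append]; rfl
  exact h 8

theorem primrec_pow2 : Primrec fun n : ℕ => 2 ^ n := by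
  refine (Primrec.nat_rec₁ 1 (f := fun _ r => r * 2)
    (Primrec.nat_mul.comp Primrec.snd (Primrec.const 2)).to₂).of_eq fun n => ?_
  induction n with
  | zero => rfl
  | succ n ih => rw [pow_succ, ← ih]

theorem computable_testBit : Computable₂ fun b t : ℕ => b.testBit t := by
  have h : Primrec₂ fun b t : ℕ => decide (b / 2 ^ t % 2 = 1) := by
    have h1 : Primrec fun q : ℕ × ℕ => q.1 / 2 ^ q.2 % 2 :=
      Primrec.nat_mod.comp (Primrec.nat_div.comp Primrec.fst
        (primrec_pow2.comp Primrec.snd)) (Primrec.const 2)
    exact (Primrec.eq.decide.comp h1 (Primrec.const 1)).to₂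
  refine h.to_comp.of_eq ?_
  rintro ⟨b, t⟩
  exact (Nat.testBit_eq_decide_div_mod_eq).symm

theorem computable_blk (hg : Computable₂ g) :
    Computable fun q : (List Bool × ℕ) × Bool => blk g q.1 q.2 := by
  have h1 : Computable fun q : (List Bool × ℕ) × Bool =>
      (List.range 8).map fun t => g (q.1.2 / 256) (q.1.1.length + t) := by
    refine computable_map_range8 (f := fun (q : (List Bool × ℕ) × Bool) t =>
      g (q.1.2 / 256) (q.1.1.length + t)) ?_
    refine hg.comp ?_ ?_
    · exact (Primrec.nat_div.comp (Primrec.snd.comp (Primrec.fst.comp Primrec.fst))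
        (Primrec.const 256)).to_comp
    · exact (Primrec.nat_add.comp (Primrec.list_length.comp
        (Primrec.fst.comp (Primrec.fst.comp Primrec.fst))) Primrec.snd).to_comp
  have h2 : Computable fun q : (List Bool × ℕ) × Bool =>
      (List.range 8).map fun t => q.1.2.testBit t := by
    refine computable_map_range8 (f := fun (q : (List Bool × ℕ) × Bool) t => q.1.2.testBit t) ?_
    exact computable_testBit.comp (Computable.snd.comp (Computable.fst.comp Computable.fst))
      Computable.snd
  refine (Computable.cond Computable.snd h1 h2).of_eq ?_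
  rintro ⟨a, β⟩
  unfold blk
  cases β <;> rfl

theorem orec_srch (hg : Computable₂ g) : ORec (srch g) := by
  have h1 : ORec fun B (a : List Bool × ℕ) => chi B a.2 :=
    (ORec.chi.comp (ORec.of_computable (f := fun a : List Bool × ℕ => a.2)
      Computable.snd)).of_eq fun B a => by simp
  have h2 : ORec fun B (a : List Bool × ℕ) =>
      (chi B a.2).map fun v => decide (v = 1) && good g a := by
    refine h1.map (g := fun q : (List Bool × ℕ) × ℕ => decide (q.2 = 1) && good g q.1) ?_
    exact Primrec.and.to_comp.comp (Primrec.eq.decide.comp Primrec.snd (Primrec.const 1)).to_comp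
      ((computable_good hg).comp Computable.fst)
  exact h2.rfind.of_eq fun B σ => rfl

theorem orec_dec (hg : Computable₂ g) : ORec (dec g) := by
  refine (ORec.nat_rec (α := List Bool) (σ := List Bool) (f := fun p => p.length)
    (G := fun _ _ => Part.some [])
    (H := fun B a => (srch g B a.2.2).map fun b =>
      a.2.2 ++ blk g (a.2.2, b) (a.1.getD a.2.1 false)) Computable.list_length
    (ORec.of_computable (Computable.const _)) ?_).of_eq fun B p => rfl
  have h1 : ORec fun B (a : List Bool × (ℕ × List Bool)) => srch g B a.2.2 :=
    ((orec_srch hg).comp (ORec.of_computable (f := fun a : List Bool × (ℕ × List Bool) => a.2.2)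
      (Computable.snd.comp Computable.snd))).of_eq fun B a => by simp
  refine h1.map (g := fun q : (List Bool × (ℕ × List Bool)) × ℕ =>
    q.1.2.2 ++ blk g (q.1.2.2, q.2) (q.1.1.getD q.1.2.1 false)) ?_
  have hσ : Computable fun q : (List Bool × (ℕ × List Bool)) × ℕ => q.1.2.2 :=
    Computable.snd.comp (Computable.snd.comp Computable.fst)
  refine Computable.list_append.comp hσ ?_
  refine (computable_blk hg).comp (Computable.pair (Computable.pair hσ Computable.snd) ?_)
  exact ((Primrec.list_getD false).comp (Primrec.fst.comp Primrec.fst)
    (Primrec.fst.comp (Primrec.snd.comp Primrec.fst))).to_comp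

/-! ### correctness -/

theorem initSeg_add (X : Set ℕ) (n m : ℕ) [DecidablePred (· ∈ X)] :
    initSeg X (n + m) = initSeg X n ++ (List.range m).map fun t => decide (n + t ∈ X) := by
  unfold initSeg
  rw [List.range_add, List.map_append, List.map_map]
  congr 1
  apply List.map_congr_left
  intro t _
  simp only [Function.comp]
  congr

open Classical in
theorem good_iff {k b : ℕ} : good g (initSeg X k, b) = true ↔
    k ≤ b / 256 ∧ ∀ i < k, g (b / 256) i = decide (i ∈ X) := by
  unfold good guess
  simp only [initSeg_length, Bool.and_eq_true, decide_eq_true_eq, and_congr_right_iff]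
  intro _
  unfold initSeg
  rw [List.map_inj_left]
  simp only [List.mem_range]
  constructor
  · intro h i hi; exact (h i hi).symm
  · intro h i hi; exact (h i hi).symm

open Classical in
theorem blk_spec {k b : ℕ} (hb : b ∈ setA g X) (hg : good g (initSeg X (8 * k), b) = true) :
    initSeg X (8 * (k + 1)) = initSeg X (8 * k) ++ blk g (initSeg X (8 * k), b)
      (decide (∀ i < 8 * (k + 1), g (b / 256) i = decide (i ∈ X))) := by
  rw [good_iff] at hg
  rw [show 8 * (k + 1) = 8 * k + 8 by ring, initSeg_add]
  congr 1
  unfold blk
  by_cases h : ∀ i < 8 * k + 8, g (b / 256) i = decide (i ∈ X)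
  · rw [if_pos (decide_eq_true h)]
    apply List.map_congr_left
    intro t ht
    rw [List.mem_range] at ht
    simp only [initSeg_length]
    exact (h _ (by omega)).symm
  · rw [if_neg (by simpa using h)]
    apply List.map_congr_left
    intro t ht
    rw [List.mem_range] at ht
    have hs : stg g X (b / 256) = k := by
      unfold stg
      rw [Nat.findGreatest_eq_iff]
      refine ⟨by omega, fun _ => hg.2, fun n hn _ hc => h fun i hi => hc i (by omega)⟩
    have := hb t ht
    rw [hs] at this
    exact this.symm

theorem exists_good (hX : ∀ i, ∀ᶠ s in atTop, (g s i = true ↔ i ∈ X)) {B : Set ℕ}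
    (hinf : B.Infinite) (k : ℕ) : ∃ b, b ∈ B ∧ good g (initSeg X k, b) = true := by
  classical
  have h1 : ∀ᶠ s in atTop, ∀ i < k, (g s i = true ↔ i ∈ X) := by
    exact (eventually_all_finite (Set.finite_lt_nat k)).2 fun i _ => hX i
  obtain ⟨N, hN⟩ := (h1.and (eventually_ge_atTop k)).exists_forall_of_atTop
  obtain ⟨b, hb, hlt⟩ := hinf.exists_gt (256 * N)
  refine ⟨b, hb, good_iff.2 ?_⟩
  have := hN (b / 256) (by omega)
  refine ⟨this.2, fun i hi => ?_⟩
  have h2 := this.1 i hi
  by_cases hi' : i ∈ X
  · rw [decide_eq_true hi']; exact h2.2 hi'
  · rw [decide_eq_false hi', ← Bool.not_eq_true, h2]; exact hi'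

theorem dec_spec (hX : ∀ i, ∀ᶠ s in atTop, (g s i = true ↔ i ∈ X)) {B : Set ℕ}
    (hB : B ⊆ setA g X) (hinf : B.Infinite) (R : ℕ) :
    ∃ p : List Bool, p.length = R ∧ initSeg X (8 * R) ∈ dec g B p := by
  classical
  have hex := fun k => exists_good (g := g) hX hinf (8 * k)
  let b : ℕ → ℕ := fun k => Nat.find (hex k)
  have hbB : ∀ k, b k ∈ B := fun k => (Nat.find_spec (hex k)).1
  have hbg : ∀ k, good g (initSeg X (8 * k), b k) = true := fun k => (Nat.find_spec (hex k)).2
  have hsr : ∀ k, b k ∈ srch g B (initSeg X (8 * k)) := by
    intro k
    unfold srch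
    rw [Nat.mem_rfind]
    constructor
    · rw [Part.mem_map_iff]
      exact ⟨1, by simp [chi, hbB], by simp [hbg]⟩
    · intro m hm
      have hn := Nat.find_min (hex k) hm
      rw [Part.mem_map_iff]
      refine ⟨if m ∈ B then 1 else 0, by simp [chi], ?_⟩
      by_cases hmB : m ∈ B
      · rw [if_pos hmB]
        have : good g (initSeg X (8 * k), m) = false := by
          rw [← Bool.not_eq_true]
          exact fun h => hn ⟨hmB, h⟩
        simp [this]
      · simp [hmB]
  let β : ℕ → Bool := fun k => decide (∀ i < 8 * (k + 1), g (b k / 256) i = decide (i ∈ X))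
  refine ⟨(List.range R).map β, by simp, ?_⟩
  have key : ∀ k ≤ R, initSeg X (8 * k) ∈ (Nat.rec (Part.some []) (fun y IH => IH.bind fun σ =>
      (srch g B σ).map fun b => σ ++ blk g (σ, b) (((List.range R).map β).getD y false)) k :
      Part (List Bool)) := by
    intro k
    induction k with
    | zero => intro _; simp [initSeg]
    | succ k ih =>
      intro hk
      show _ ∈ Part.bind _ _
      rw [Part.mem_bind_iff]
      refine ⟨_, ih (by omega), ?_⟩
      rw [Part.mem_map_iff]
      refine ⟨b k, hsr k, ?_⟩
      have hget : ((List.range R).map β).getD k false = β k := by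
        rw [List.getD_eq_getElem?_getD, List.getElem?_map, List.getElem?_range (by omega)]
        rfl
      rw [hget]
      exact (blk_spec (hB (hbB k)) (hbg k)).symm
  have := key R le_rfl
  unfold dec
  rw [List.length_map, List.length_range]
  exact this

end

end Pool.Agent.FAE
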