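import Mathlib

/-! Plain Kolmogorov complexity, with and without an oracle. -/

set_option autoImplicit false

namespace Pool.Agent.FAE

open Filter Encodable

open Classical in
/-- The string `X ↾ n`, the first `n` bits of the characteristic sequence of `X`. -/
noncomputable def initSeg (X : Set ℕ) (n : ℕ) : List Bool :=
  (List.range n).map fun i => decide (i ∈ X)

open Classical in
/-- The characteristic function of `B`, used as an oracle. -/
noncomputable def chi (B : Set ℕ) : ℕ →. ℕ := fun n => Part.some (if n ∈ B then 1 else 0)

/-- The plain complexity of the string `σ` with respect to the machine `M`: the least length of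
an input on which `M` halts with output `σ` (`⊤` if there is none). -/
noncomputable def complexity (M : List Bool →. List Bool) (σ : List Bool) : ℕ∞ :=
  ⨅ (p : List Bool) (_ : σ ∈ M p), (p.length : ℕ∞)

/-- `U` is an optimal machine: partial computable, and at least as good as any other partial
computable function up to an additive constant. -/
def OptimalMachine (U : List Bool →. List Bool) : Prop :=
  Partrec U ∧ ∀ V : List Bool →. List Bool, Partrec V →
    ∃ c : ℕ, ∀ σ, complexity U σ ≤ complexity V σ + c

/-- The functionals on the natural numbers computed by oracle programs: for every clause of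
Mathlib's definition `Nat.RecursiveIn` of the functions partial recursive in an oracle, the same
clause applied uniformly in the oracle `B`. -/
inductive OracleRec : (Set ℕ → ℕ →. ℕ) → Prop
  | zero : OracleRec fun _ _ => 0
  | succ : OracleRec fun _ => Nat.succ
  | left : OracleRec fun _ n => (Nat.unpair n).1
  | right : OracleRec fun _ n => (Nat.unpair n).2
  | oracle : OracleRec chi
  | pair {F G : Set ℕ → ℕ →. ℕ} (hF : OracleRec F) (hG : OracleRec G) :
      OracleRec fun B n => (Nat.pair <$> F B n <*> G B n)
  | comp {F G : Set ℕ → ℕ →. ℕ} (hF : OracleRec F) (hG : OracleRec G) :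
      OracleRec fun B n => G B n >>= F B
  | prec {F G : Set ℕ → ℕ →. ℕ} (hF : OracleRec F) (hG : OracleRec G) :
      OracleRec fun B p =>
        let (a, n) := Nat.unpair p
        n.rec (F B a) fun y IH => do
          let i ← IH
          G B (Nat.pair a (Nat.pair y i))
  | rfind {F : Set ℕ → ℕ →. ℕ} (hF : OracleRec F) :
      OracleRec fun B a =>
        Nat.rfind fun n => (fun m => m = 0) <$> F B (Nat.pair a n)

/-- `Φ` is an oracle machine on strings: with oracle `B` it computes `Φ B`, uniformly in `B`. -/
def OracleMachine (Φ : Set ℕ → List Bool →. List Bool) : Prop :=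
  OracleRec fun B n => Part.bind (decode (α := List Bool) n) fun p => (Φ B p).map encode

/-- `Φ` is an optimal oracle machine. -/
def OptimalOracleMachine (Φ : Set ℕ → List Bool →. List Bool) : Prop :=
  OracleMachine Φ ∧ ∀ Ψ : Set ℕ → List Bool →. List Bool, OracleMachine Ψ →
    ∃ c : ℕ, ∀ B σ, complexity (Φ B) σ ≤ complexity (Ψ B) σ + c

/-- The lower density `liminf |A ∩ {0, …, n-1}| / n`. -/
noncomputable def lowerDensity (A : Set ℕ) : ℝ :=
  Filter.liminf (fun n : ℕ => ((A ∩ Set.Iio n).ncard : ℝ) / n) Filter.atTop

end Pool.Agent.FAE
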