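import Pool.Agent.FAE.Upper
import Pool.Agent.EXLow.Tools

/-! A limit computable set whose initial segments have complexity at least `n / 4 - c`. -/

set_option autoImplicit false

namespace Pool.Agent.FAE

open Filter Encodable Pool.Agent.EXLow

/-- The string `y` has a description by the machine `univ` which is shorter than `y`. -/
def Comp (y : List Bool) : Prop := ∃ p : List Bool, p.length < y.length ∧ y ∈ univ p

theorem rePred_comp' : REPred Comp := by
  have h1 : REPred fun q : List Bool × List Bool => q.1 ∈ univ q.2 := by
    have h2 := rePred_mem (f := fun p : List Bool => (univ p).map encode)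
      (Partrec.map (f := univ) (g := fun _ y => encode y) partrec_univ
        (Computable.encode.comp Computable.snd).to₂)
    refine (rePred_comp (f := fun q : List Bool × List Bool => (q.2, encode q.1)) h2
      (Computable.pair Computable.snd (Computable.encode.comp Computable.fst))).of_eq ?_
    rintro ⟨y, p⟩
    simp [Part.mem_map_iff]
  have h3 : REPred fun q : List Bool × List Bool => decide (q.2.length < q.1.length) = true :=
    rePred_of_computable (Primrec.nat_lt.decide.comp (Primrec.list_length.comp Primrec.snd)
      (Primrec.list_length.comp Primrec.fst)).to_comp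
  refine (rePred_exists (rePred_and h3 h1)).of_eq fun y => ?_
  simp [Comp]

/-- The string of length `2 ^ j` whose entries are the binary digits of `N`. -/
def strN (j N : ℕ) : List Bool := (List.range (2 ^ j)).map N.testBit

theorem strN_length (j N : ℕ) : (strN j N).length = 2 ^ j := by simp [strN]

theorem exists_strN (j : ℕ) (y : List Bool) (hy : y.length = 2 ^ j) :
    ∃ N < 2 ^ 2 ^ j, strN j N = y := by
  refine ⟨Nat.ofBits fun t : Fin (2 ^ j) => y.getD t false, Nat.ofBits_lt_two_pow _, ?_⟩
  unfold strN
  apply List.ext_getElem?
  intro i
  rw [List.getElem?_map]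
  by_cases hi : i < 2 ^ j
  · rw [List.getElem?_range hi, Option.map_some, Nat.testBit_ofBits_lt _ _ hi]
    rw [List.getD_eq_getElem?_getD]
    rw [List.getElem?_eq_getElem (by omega)]
    rfl
  · rw [List.getElem?_eq_none (by simpa using hi), List.getElem?_eq_none (by omega)]
    rfl

theorem pad_inj {p q : List Bool} {a b : ℕ}
    (h : p ++ true :: List.replicate a false = q ++ true :: List.replicate b false) : p = q := by
  have key : ∀ {p q : List Bool} {a b : ℕ},
      p ++ true :: List.replicate a false = q ++ true :: List.replicate b false →
      ¬ p.length < q.length := by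
    intro p q a b h hlt
    have h1 := congrArg (fun l => l[q.length]?) h
    rw [List.getElem?_append_right hlt.le, List.getElem?_append_right le_rfl] at h1
    obtain ⟨d, hd⟩ := Nat.exists_eq_add_of_lt hlt
    rw [hd, show p.length + d + 1 - p.length = d + 1 by omega] at h1
    simp only [List.getElem?_cons_succ, Nat.sub_self, List.getElem?_cons_zero,
      List.getElem?_replicate] at h1
    split_ifs at h1 with h2
    simp at h1
  have hlen : p.length = q.length :=
    le_antisymm (not_lt.1 (key h.symm)) (not_lt.1 (key h))
  exact (List.append_inj h hlen).1

/-- There is an incompressible string of every length. -/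
theorem exists_incomp (n : ℕ) : ∃ y : List Bool, y.length = n ∧ ¬ Comp y := by
  by_contra hcon
  have hcon' : ∀ y : List.Vector Bool n, Comp y.1 := fun y => by
    by_contra h
    exact hcon ⟨y.1, y.2, h⟩
  choose P hP using hcon'
  -- pad the description
  let f : List.Vector Bool n → List.Vector Bool n := fun y =>
    ⟨P y ++ true :: List.replicate (n - (P y).length - 1) false, by
      have := (hP y).1
      have h2 := y.2
      simp only [List.length_append, List.length_cons, List.length_replicate]
      omega⟩
  have hf : Function.Injective f := by
    intro y z h
    have h1 : P y = P z := pad_inj (congrArg Subtype.val h)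
    have h2 := (hP y).2
    have h3 := (hP z).2
    rw [h1] at h2
    exact Subtype.ext (Part.mem_unique h2 h3)
  obtain ⟨y, hy⟩ := (Finite.injective_iff_surjective.1 hf)
    ⟨List.replicate n false, List.length_replicate⟩
  have h1 : true ∈ List.replicate n false := by
    have : P y ++ true :: List.replicate (n - (P y).length - 1) false = List.replicate n false :=
      congrArg Subtype.val hy
    rw [← this]
    simp
  simp [List.mem_replicate] at h1

open Classical in
/-- The search for an incompressible string of length `2 ^ j`. -/
noncomputable def cand (j k : ℕ) : ℕ :=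
  Nat.rec 0 (fun _ c => bif decide (Comp (strN j c)) then c + 1 else c) k

theorem cand_spec (j k : ℕ) : ¬ Comp (strN j (cand j k)) ∨
    (cand j k = k ∧ ∀ N < k, Comp (strN j N)) := by
  classical
  induction k with
  | zero => exact Or.inr ⟨rfl, fun N hN => absurd hN (Nat.not_lt_zero N)⟩
  | succ k ih =>
    have e : cand j (k + 1) = bif decide (Comp (strN j (cand j k))) then cand j k + 1
        else cand j k := rfl
    rcases ih with h | ⟨h1, h2⟩
    · left
      rw [e, decide_eq_false h]
      exact h
    · by_cases hk : Comp (strN j k)
      · right
        rw [e, h1, decide_eq_true hk]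
        refine ⟨rfl, fun N hN => ?_⟩
        rcases Nat.lt_succ_iff_lt_or_eq.1 hN with h | rfl
        · exact h2 N h
        · exact hk
      · left
        rw [e, h1, decide_eq_false hk]
        exact hk

/-- The code of an incompressible string of length `2 ^ j`. -/
noncomputable def inc (j : ℕ) : ℕ := cand j (2 ^ 2 ^ j)

theorem inc_spec (j : ℕ) : ¬ Comp (strN j (inc j)) := by
  rcases cand_spec j (2 ^ 2 ^ j) with h | ⟨_, h⟩
  · exact h
  · obtain ⟨y, hy, hc⟩ := exists_incomp (2 ^ j)
    obtain ⟨N, hN, rfl⟩ := exists_strN j y hy
    exact absurd (h N hN) hc

theorem computable_map_range {α β : Type*} [Primcodable α] [Primcodable β] {f : α → ℕ}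
    {h : α → ℕ → β} (hf : Computable f) (hh : Computable₂ h) :
    Computable fun a => (List.range (f a)).map (h a) := by
  have h1 : Computable fun a => (Nat.rec [] (fun i (IH : List β) => IH ++ [h a i]) (f a) :
      List β) := by
    refine Computable.nat_rec (f := f) (g := fun _ => [])
      (h := fun (a : α) (r : ℕ × List β) => r.2 ++ [h a r.1]) hf (Computable.const _) ?_
    exact Computable.list_append.comp (Computable.snd.comp Computable.snd)
      (Computable.list_cons.comp (hh.comp Computable.fst (Computable.fst.comp Computable.snd))
        (Computable.const []))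
  refine h1.of_eq fun a => ?_
  induction f a with
  | zero => rfl
  | succ k ih =>
    rw [List.range_succ, List.map_append, ← ih]
    rfl

theorem computable_strN : Computable₂ strN := by
  have h := computable_map_range (α := ℕ × ℕ) (f := fun q => 2 ^ q.1)
    (h := fun q t => q.2.testBit t) (primrec_pow2.comp Primrec.fst).to_comp
    (computable_testBit.comp (Computable.snd.comp Computable.fst) Computable.snd)
  exact h.to₂

theorem limC_inc : LimC inc := by
  classical
  have h1 : LimC fun a : ℕ × (ℕ × ℕ) => decide (Comp (strN a.1 a.2.2)) :=
    LimC.of_rePred (rePred_comp rePred_comp' (computable_strN.comp Computable.fst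
      (Computable.snd.comp Computable.snd)))
  have h2 : LimC fun a : ℕ × (ℕ × ℕ) =>
      bif decide (Comp (strN a.1 a.2.2)) then a.2.2 + 1 else a.2.2 :=
    LimC.cond h1 (LimC.of_computable (Computable.succ.comp (Computable.snd.comp Computable.snd)))
      (LimC.of_computable (Computable.snd.comp Computable.snd))
  exact LimC.nat_rec (f := fun j => 2 ^ 2 ^ j) (g := fun _ => 0)
    (LimC.of_computable (primrec_pow2.comp primrec_pow2).to_comp)
    (LimC.of_computable (Computable.const 0)) h2

end Pool.Agent.FAE
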