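import Pool.Agent.FAE.Incomp

/-! The set `X` and the lower bound for the complexity of its initial segments. -/

set_option autoImplicit false

namespace Pool.Agent.FAE

open Filter Encodable Pool.Agent.EXLow

/-- The binary logarithm. -/
def lg (i : ℕ) : ℕ := Nat.findGreatest (fun j => 2 ^ j ≤ i) i

theorem primrec_lg : Primrec lg := by
  refine Primrec.nat_findGreatest (f := fun i : ℕ => i) (p := fun i j => 2 ^ j ≤ i) Primrec.id ?_
  exact Primrec.nat_le.comp (primrec_pow2.comp Primrec.snd) Primrec.fst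

theorem lg_eq {i j : ℕ} (h1 : 2 ^ j ≤ i) (h2 : i < 2 ^ (j + 1)) : lg i = j := by
  unfold lg
  rw [Nat.findGreatest_eq_iff]
  refine ⟨(Nat.lt_two_pow_self.le.trans h1), fun _ => h1, fun n hn _ hc => ?_⟩
  have : 2 ^ (j + 1) ≤ 2 ^ n := Nat.pow_le_pow_right (by norm_num) hn
  omega

/-- The set `X`: in the interval `[2 ^ j, 2 ^ (j + 1))` it is given by an incompressible
string of length `2 ^ j`. -/
def setX : Set ℕ := {i | (inc (lg i)).testBit (i - 2 ^ lg i) = true}

theorem limC_setX : ∃ g : ℕ → ℕ → Bool, Computable₂ g ∧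
    ∀ i, ∀ᶠ s in atTop, (g s i = true ↔ i ∈ setX) := by
  have h1 : LimC fun i : ℕ => (inc (lg i)).testBit (i - 2 ^ lg i) := by
    refine LimC.comp (f := fun q : ℕ × ℕ => q.1.testBit q.2)
      (h := fun i : ℕ => (inc (lg i), i - 2 ^ lg i)) (LimC.of_computable computable_testBit) ?_
    refine (limC_inc.comp (LimC.of_computable primrec_lg.to_comp)).pair
      (LimC.of_computable ?_)
    exact (Primrec.nat_sub.comp Primrec.id (primrec_pow2.comp primrec_lg)).to_comp
  obtain ⟨g, hg, hlim⟩ := h1
  refine ⟨g, hg, fun i => (hlim i).mono fun s hs => ?_⟩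
  rw [hs]
  exact Iff.rfl

/-- The extraction of the last complete incompressible block. -/
def extr (τ : List Bool) : List Bool :=
  (List.range (2 ^ (lg τ.length - 1))).map fun t => τ.getD (2 ^ (lg τ.length - 1) + t) false

theorem computable_extr : Computable extr := by
  have h1 : Primrec fun τ : List Bool => 2 ^ (lg τ.length - 1) :=
    primrec_pow2.comp (Primrec.nat_sub.comp (primrec_lg.comp Primrec.list_length)
      (Primrec.const 1))
  refine computable_map_range (f := fun τ : List Bool => 2 ^ (lg τ.length - 1))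
    (h := fun τ t => τ.getD (2 ^ (lg τ.length - 1) + t) false) h1.to_comp ?_
  exact ((Primrec.list_getD false).comp Primrec.fst
    (Primrec.nat_add.comp (h1.comp Primrec.fst) Primrec.snd)).to_comp

theorem extr_initSeg {j n : ℕ} (h1 : 2 ^ (j + 1) ≤ n) (h2 : n < 2 ^ (j + 2)) :
    extr (initSeg setX n) = strN j (inc j) := by
  classical
  have hlg : lg (initSeg setX n).length - 1 = j := by
    rw [initSeg_length, lg_eq h1 h2]; rfl
  unfold extr strN
  rw [hlg]
  apply List.map_congr_left
  intro t ht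
  rw [List.mem_range] at ht
  have hlt : 2 ^ j + t < n := by rw [pow_succ] at h1; omega
  rw [List.getD_eq_getElem?_getD, initSeg_getElem?, if_pos hlt, Option.getD_some]
  have hl : lg (2 ^ j + t) = j := lg_eq (by omega) (by rw [pow_succ]; omega)
  have hmem : 2 ^ j + t ∈ setX ↔ (inc j).testBit t = true := by
    show (inc (lg (2 ^ j + t))).testBit (2 ^ j + t - 2 ^ lg (2 ^ j + t)) = true ↔ _
    rw [hl, Nat.add_sub_cancel_left]
  rw [Bool.eq_iff_iff, decide_eq_true_eq, hmem]

theorem pow_le_complexity_inc (j : ℕ) :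
    ((2 ^ j : ℕ) : ℕ∞) ≤ complexity univ (strN j (inc j)) := by
  refine le_iInf₂ fun p hp => ?_
  have h := inc_spec j
  by_contra hlt
  rw [not_le] at hlt
  refine h ⟨p, ?_, hp⟩
  rw [strN_length]
  exact_mod_cast hlt

theorem lower_bound {U : List Bool →. List Bool} (hU : OptimalMachine U) :
    ∃ c : ℕ, ∀ n ≥ 2, ((n / 4 : ℕ) : ℕ∞) ≤ complexity U (initSeg setX n) + c := by
  obtain ⟨c, hc⟩ := optimalMachine_univ.2 (fun p => (U p).map extr)
    (Partrec.map (f := U) (g := fun _ τ => extr τ) hU.1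
      (computable_extr.comp Computable.snd).to₂)
  refine ⟨c, fun n hn => ?_⟩
  obtain ⟨k, hk1, hk2⟩ : ∃ k, 2 ^ k ≤ n ∧ n < 2 ^ (k + 1) :=
    ⟨Nat.log 2 n, Nat.pow_log_le_self 2 (by omega), Nat.lt_pow_succ_log_self (by norm_num) n⟩
  obtain ⟨j, rfl⟩ : ∃ j, k = j + 1 := by
    cases k with
    | zero => simp at hk2; omega
    | succ j => exact ⟨j, rfl⟩
  have h1 : ((2 ^ j : ℕ) : ℕ∞) ≤ complexity U (initSeg setX n) + c := by
    refine (pow_le_complexity_inc j).trans ((hc _).trans ?_)
    gcongr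
    have := complexity_le_of_sim (U := fun p => (U p).map extr) (V := U) (c := 0)
      (σ := initSeg setX n) (τ := strN j (inc j)) fun p hp => ⟨p, by simp, by
        rw [Part.mem_map_iff]
        exact ⟨_, hp, extr_initSeg hk1 hk2⟩⟩
    simpa using this
  refine le_trans ?_ h1
  have : n / 4 ≤ 2 ^ j := by
    have : n < 4 * 2 ^ j := by
      calc n < 2 ^ (j + 1 + 1) := hk2
        _ = 4 * 2 ^ j := by ring
    omega
  exact_mod_cast this

end Pool.Agent.FAE
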