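import Pool.Agent.FAE.Use

/-! Existence of optimal machines. -/

set_option autoImplicit false

namespace Pool.Agent.FAE

open Filter Encodable
open Nat.Partrec (Code)

theorem complexity_le {M : List Bool →. List Bool} {σ p : List Bool} (h : σ ∈ M p) :
    complexity M σ ≤ p.length := iInf₂_le p h

theorem exists_complexity {M : List Bool →. List Bool} {σ : List Bool} (h : ∃ p, σ ∈ M p) :
    ∃ p, σ ∈ M p ∧ complexity M σ = p.length := by
  classical
  have h' : ∃ n, ∃ p : List Bool, p.length = n ∧ σ ∈ M p := by
    obtain ⟨p, hp⟩ := h; exact ⟨_, p, rfl, hp⟩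
  obtain ⟨p, hp, hσ⟩ := Nat.find_spec h'
  refine ⟨p, hσ, le_antisymm (complexity_le hσ) ?_⟩
  refine le_iInf₂ fun q hq => ?_
  rw [hp]
  exact_mod_cast Nat.find_min' h' ⟨q, rfl, hq⟩

theorem complexity_eq_top {M : List Bool →. List Bool} {σ : List Bool} (h : ¬ ∃ p, σ ∈ M p) :
    complexity M σ = ⊤ := by
  unfold complexity
  simp only [iInf_eq_top]
  intro p hp
  exact absurd ⟨p, hp⟩ h

theorem complexity_le_of_sim {U V : List Bool →. List Bool} {c : ℕ} {σ τ : List Bool}
    (h : ∀ p, σ ∈ V p → ∃ q : List Bool, q.length ≤ p.length + c ∧ τ ∈ U q) :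
    complexity U τ ≤ complexity V σ + c := by
  by_cases hp : ∃ p, σ ∈ V p
  · obtain ⟨p, hp, he⟩ := exists_complexity hp
    obtain ⟨q, hq, hτ⟩ := h p hp
    rw [he]
    refine (complexity_le hτ).trans ?_
    exact_mod_cast hq
  · rw [complexity_eq_top hp]; simp

/-- The prefix which selects the machine number `e`. -/
def hd (e : ℕ) (p : List Bool) : List Bool := List.replicate e true ++ false :: p

theorem hd_length (e : ℕ) (p : List Bool) : (hd e p).length = p.length + (e + 1) := by
  simp [hd]; omega

theorem hd_idx (e : ℕ) (p : List Bool) : (hd e p).idxOf false = e := by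
  unfold hd
  rw [List.idxOf_append_of_notMem (by simp [List.mem_replicate])]
  simp

theorem hd_drop (e : ℕ) (p : List Bool) : (hd e p).drop (e + 1) = p := by
  unfold hd
  have : List.replicate e true ++ false :: p = (List.replicate e true ++ [false]) ++ p := by simp
  rw [this]
  exact List.drop_left' (by simp)

/-- The standard optimal machine. -/
def univ (p : List Bool) : Part (List Bool) :=
  (Code.eval (Denumerable.ofNat Code (p.idxOf false))
    (encode (p.drop (p.idxOf false + 1)))).bind fun v => ((decode (α := List Bool) v : Option (List Bool)) : Part (List Bool))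

theorem primrec_idx : Primrec fun p : List Bool => p.idxOf false :=
  Primrec.list_idxOf.comp (Primrec.const false) Primrec.id

theorem primrec_rest : Primrec fun p : List Bool => p.drop (p.idxOf false + 1) :=
  Primrec.list_drop.comp (Primrec.succ.comp primrec_idx) Primrec.id

theorem partrec_univ : Partrec univ := by
  refine Partrec.bind (f := fun p : List Bool => Code.eval (Denumerable.ofNat Code (p.idxOf false))
    (encode (p.drop (p.idxOf false + 1)))) (g := fun _ v => ((decode (α := List Bool) v : Option (List Bool)) : Part (List Bool)))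
    ?_ ?_
  · exact Code.eval_part.comp ((Primrec.ofNat Code).comp primrec_idx).to_comp
      (Primrec.encode.comp primrec_rest).to_comp
  · exact (Computable.ofOption (Computable.decode.comp Computable.snd)).to₂

theorem univ_hd (c : Code) (p : List Bool) :
    univ (hd (encode c) p) = (Code.eval c (encode p)).bind
      fun v => ((decode (α := List Bool) v : Option (List Bool)) : Part (List Bool)) := by
  unfold univ
  rw [hd_idx, hd_drop, Denumerable.ofNat_encode]

theorem optimalMachine_univ : OptimalMachine univ := by
  refine ⟨partrec_univ, fun V hV => ?_⟩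
  obtain ⟨c, hc⟩ := Code.exists_code.1 hV
  refine ⟨encode c + 1, fun σ => complexity_le_of_sim fun p hp => ⟨hd (encode c) p, ?_, ?_⟩⟩
  · rw [hd_length]
  · rw [univ_hd, hc]
    simp only [encodek, Part.coe_some, Part.bind_some, Part.mem_bind_iff, Part.mem_map_iff]
    exact ⟨encode σ, ⟨σ, hp, rfl⟩, by simp⟩

/-! ### the oracle case -/

theorem orec_initSeg : ORec fun B (k : ℕ) => Part.some (initSeg B k) := by
  classical
  have h := ORec.nat_rec (α := ℕ) (σ := List Bool) (f := fun k => k)
    (G := fun _ _ => Part.some [])
    (H := fun B a => (chi B a.2.1).map fun v => a.2.2 ++ [decide (v = 1)]) Computable.id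
    (ORec.of_computable (Computable.const _)) ?_
  · refine h.of_eq fun B k => ?_
    induction k with
    | zero => simp [initSeg]
    | succ k ih =>
      simp only at ih ⊢
      rw [ih]
      simp only [Part.bind_some, chi, Part.map_some]
      congr 1
      unfold initSeg
      rw [List.range_succ, List.map_append]
      by_cases hk : k ∈ B <;> simp [hk]
  · have h1 : ORec fun B (a : ℕ × (ℕ × List Bool)) => chi B a.2.1 :=
      (ORec.chi.comp (ORec.of_computable (f := fun a : ℕ × (ℕ × List Bool) => a.2.1)
        (Computable.fst.comp Computable.snd))).of_eq fun B a => by simp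
    refine h1.map (g := fun q : (ℕ × (ℕ × List Bool)) × ℕ => q.1.2.2 ++ [decide (q.2 = 1)]) ?_
    refine Primrec.to_comp ?_
    refine Primrec.list_append.comp (Primrec.snd.comp (Primrec.snd.comp Primrec.fst)) ?_
    exact Primrec.list_cons.comp ((Primrec.eq.comp Primrec.snd (Primrec.const 1)).decide)
      (Primrec.const [])

/-- One evaluation of the universal oracle machine. -/
def tst (q : (List Bool × ℕ) × List Bool) : Option ℕ :=
  Code.evaln q.1.2.unpair.2 (Denumerable.ofNat Code (q.1.1.idxOf false))
    (encode (q.2, encode (q.1.1.drop (q.1.1.idxOf false + 1))))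

theorem primrec_tst : Primrec tst := by
  unfold tst
  refine Code.primrec_evaln.comp (Primrec.pair (Primrec.pair ?_ ?_) ?_)
  · exact Primrec.snd.comp (Primrec.unpair.comp (Primrec.snd.comp Primrec.fst))
  · exact (Primrec.ofNat Code).comp (primrec_idx.comp (Primrec.fst.comp Primrec.fst))
  · exact Primrec.encode.comp (Primrec.pair Primrec.snd
      (Primrec.encode.comp (primrec_rest.comp (Primrec.fst.comp Primrec.fst))))

/-- The standard optimal oracle machine. -/
noncomputable def ouniv (B : Set ℕ) (p : List Bool) : Part (List Bool) :=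
  (Nat.rfind fun m => Part.some (tst ((p, m), initSeg B m.unpair.1)).isSome).bind fun m =>
    Part.some (((tst ((p, m), initSeg B m.unpair.1)).bind (decode (α := List Bool))).getD [])

theorem orec_ouniv : ORec ouniv := by
  have h0 : ORec fun B (a : List Bool × ℕ) => Part.some (initSeg B a.2.unpair.1) :=
    (orec_initSeg.comp (ORec.of_computable (f := fun a : List Bool × ℕ => a.2.unpair.1)
      (Computable.fst.comp (Computable.unpair.comp Computable.snd)))).of_eq fun B a => by simp
  have h1 : ORec fun B (a : List Bool × ℕ) =>
      Part.some (tst (a, initSeg B a.2.unpair.1)).isSome :=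
    (h0.map (g := fun q : (List Bool × ℕ) × List Bool => (tst q).isSome)
      (Primrec.option_isSome.comp primrec_tst).to_comp).of_eq fun B a => by simp
  have h2 : ORec fun B (a : List Bool × ℕ) =>
      Part.some (((tst (a, initSeg B a.2.unpair.1)).bind (decode (α := List Bool))).getD []) :=
    (h0.map (g := fun q : (List Bool × ℕ) × List Bool =>
      ((tst q).bind (decode (α := List Bool))).getD [])
      (Primrec.option_getD.comp (Primrec.option_bind primrec_tst
        (Primrec.decode.comp Primrec.snd).to₂) (Primrec.const [])).to_comp).of_eq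
      fun B a => by simp
  exact (h1.rfind.bind h2).of_eq fun B p => rfl

theorem optimalOracleMachine_ouniv : OptimalOracleMachine ouniv := by
  refine ⟨orec_ouniv, fun Ψ hΨ => ?_⟩
  obtain ⟨F, hF, mono, hu⟩ := use_principle hΨ
  obtain ⟨c, hc⟩ := Code.exists_code.1 hF
  have hc' : ∀ τ x v, v ∈ c.eval (encode (τ, x)) ↔ v ∈ F τ x := by
    intro τ x v
    rw [hc]
    simp
  refine ⟨encode c + 1, fun B σ => complexity_le_of_sim fun p hp => ⟨hd (encode c) p, ?_, ?_⟩⟩
  · rw [hd_length]
  · have key : ∀ m v, tst ((hd (encode c) p, m), initSeg B m.unpair.1) = some v →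
        v = encode σ := by
      intro m v hv
      unfold tst at hv
      simp only [hd_idx, hd_drop, Denumerable.ofNat_encode] at hv
      have h1 := Code.evaln_sound (Option.mem_def.2 hv)
      rw [hc'] at h1
      have h2 := (hu B (encode p) v).2 ⟨_, h1⟩
      simp only [encodek, Part.coe_some, Part.bind_some, Part.mem_map_iff] at h2
      obtain ⟨σ', hσ', rfl⟩ := h2
      rw [Part.mem_unique hp hσ']
    have hex : ∃ m, (tst ((hd (encode c) p, m), initSeg B m.unpair.1)).isSome = true := by
      have h1 : encode σ ∈ (Part.bind (decode (α := List Bool) (encode p)) fun p =>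
          (Ψ B p).map encode) := by
        simp only [encodek, Part.coe_some, Part.bind_some, Part.mem_map_iff]
        exact ⟨σ, hp, rfl⟩
      obtain ⟨k, hk⟩ := (hu B (encode p) (encode σ)).1 h1
      rw [← hc', Code.evaln_complete] at hk
      obtain ⟨t, ht⟩ := hk
      refine ⟨Nat.pair k t, ?_⟩
      unfold tst
      simp only [hd_idx, hd_drop, Denumerable.ofNat_encode, Nat.unpair_pair]
      rw [Option.mem_def.1 ht]; rfl
    unfold ouniv
    rw [Part.mem_bind_iff]
    classical
    refine ⟨Nat.find hex, ?_, ?_⟩
    · rw [Nat.mem_rfind]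
      refine ⟨Part.mem_some_iff.2 (Nat.find_spec hex).symm, fun {m} hm => ?_⟩
      have := Nat.find_min hex hm
      rw [Bool.not_eq_true] at this
      exact Part.mem_some_iff.2 this.symm
    · obtain ⟨v, hv⟩ := Option.isSome_iff_exists.1 (Nat.find_spec hex)
      rw [hv]
      rw [key _ _ hv]
      simp

end Pool.Agent.FAE
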