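import Pool.Agent.FAE.Defs

/-! Closure properties of the class of oracle machines. -/

set_option autoImplicit false

namespace Pool.Agent.FAE

open Encodable Part

/-- With a fixed oracle, an oracle functional is partial recursive in the oracle. -/
theorem OracleRec.recursiveIn {F : Set ℕ → ℕ →. ℕ} (hF : OracleRec F) (B : Set ℕ) :
    Nat.RecursiveIn {chi B} (F B) := by
  induction hF with
  | zero => exact .zero
  | succ => exact .succ
  | left => exact .left
  | right => exact .right
  | oracle => exact .oracle _ rfl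
  | pair _ _ ih₁ ih₂ => exact .pair ih₁ ih₂
  | comp _ _ ih₁ ih₂ => exact .comp ih₁ ih₂
  | prec _ _ ih₁ ih₂ => exact .prec ih₁ ih₂
  | rfind _ ih => exact .rfind ih

/-- Every function partial recursive in `B` is computed by an oracle functional. -/
theorem OracleRec.exists_of_recursiveIn {B : Set ℕ} {f : ℕ →. ℕ}
    (hf : Nat.RecursiveIn {chi B} f) : ∃ F, OracleRec F ∧ F B = f := by
  induction hf with
  | zero => exact ⟨_, .zero, rfl⟩
  | succ => exact ⟨_, .succ, rfl⟩
  | left => exact ⟨_, .left, rfl⟩
  | right => exact ⟨_, .right, rfl⟩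
  | oracle g hg => exact ⟨_, .oracle, hg.symm⟩
  | pair _ _ ih₁ ih₂ =>
    obtain ⟨F, hF, rfl⟩ := ih₁
    obtain ⟨G, hG, rfl⟩ := ih₂
    exact ⟨_, .pair hF hG, rfl⟩
  | comp _ _ ih₁ ih₂ =>
    obtain ⟨F, hF, rfl⟩ := ih₁
    obtain ⟨G, hG, rfl⟩ := ih₂
    exact ⟨_, .comp hF hG, rfl⟩
  | prec _ _ ih₁ ih₂ =>
    obtain ⟨F, hF, rfl⟩ := ih₁
    obtain ⟨G, hG, rfl⟩ := ih₂
    exact ⟨_, .prec hF hG, rfl⟩
  | rfind _ ih =>
    obtain ⟨F, hF, rfl⟩ := ih
    exact ⟨_, .rfind hF, rfl⟩

theorem OracleRec.of_eq {F G : Set ℕ → ℕ →. ℕ} (hF : OracleRec F) (H : ∀ B n, F B n = G B n) :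
    OracleRec G := (funext fun B => funext fun n => H B n : F = G) ▸ hF

theorem OracleRec.of_partrec {f : ℕ →. ℕ} (hf : Nat.Partrec f) : OracleRec fun _ => f := by
  induction hf with
  | zero => exact .zero
  | succ => exact .succ
  | left => exact .left
  | right => exact .right
  | pair _ _ ih₁ ih₂ => exact .pair ih₁ ih₂
  | comp _ _ ih₁ ih₂ => exact .comp ih₁ ih₂
  | prec _ _ ih₁ ih₂ => exact .prec ih₁ ih₂
  | rfind _ ih => exact .rfind ih

variable {α β γ σ : Type*} [Primcodable α] [Primcodable β] [Primcodable γ] [Primcodable σ]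

/-- Typed version of `OracleRec`. -/
def ORec (F : Set ℕ → α →. β) : Prop :=
  OracleRec fun B n => Part.bind (decode (α := α) n) fun a => (F B a).map encode

theorem ORec.of_eq {F G : Set ℕ → α →. β} (hF : ORec F) (H : ∀ B n, F B n = G B n) : ORec G :=
  (funext fun B => funext fun n => H B n : F = G) ▸ hF

theorem ORec.of_partrec {f : α →. β} (hf : Partrec f) : ORec fun _ => f :=
  OracleRec.of_partrec hf

theorem ORec.of_computable {f : α → β} (hf : Computable f) : ORec fun _ a => Part.some (f a) :=
  ORec.of_partrec hf.partrec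

set_option backward.isDefEq.respectTransparency false in
theorem ORec.bind {F : Set ℕ → α →. β} {G : Set ℕ → α × β →. γ} (hF : ORec F) (hG : ORec G) :
    ORec fun B a => (F B a).bind fun b => G B (a, b) :=
  (OracleRec.comp hG ((OracleRec.of_partrec Nat.Partrec.some).pair hF)).of_eq fun B n => by
    rcases e : decode (α := α) n <;> simp [Seq.seq, e, encodek]

theorem ORec.comp {F : Set ℕ → β →. γ} {G : Set ℕ → α →. β} (hF : ORec F) (hG : ORec G) :
    ORec fun B a => (G B a).bind (F B) :=
  (OracleRec.comp hF hG).of_eq fun B n => by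
    rcases e : decode (α := α) n with _ | a <;> simp [encodek]

theorem ORec.chi : ORec (fun B => chi B) :=
  OracleRec.oracle.of_eq fun B n => by simp [Part.map_id']

theorem ORec.map {F : Set ℕ → α →. β} {g : α × β → γ} (hF : ORec F) (hg : Computable g) :
    ORec fun B a => (F B a).map fun b => g (a, b) := by
  have h := hF.bind (ORec.of_computable hg)
  exact h.of_eq fun B a => by simp [Part.bind_some_eq_map]

set_option backward.isDefEq.respectTransparency false in
theorem ORec.rfind {F : Set ℕ → α × ℕ →. Bool} (hF : ORec F) :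
    ORec fun B a => Nat.rfind fun n => F B (a, n) :=
  (OracleRec.rfind <|
    hF.map (((Primrec.dom_bool fun b => cond b 0 1).comp Primrec.snd).to_comp)).of_eq
    fun B n => by
    rcases e : decode (α := α) n <;> simp [e, Nat.rfind_zero_none, Part.map_map, Part.map_id']

theorem OracleRec.prec' {F G H : Set ℕ → ℕ →. ℕ} (hF : OracleRec F) (hG : OracleRec G)
    (hH : OracleRec H) :
    OracleRec fun B a => (F B a).bind fun n => n.rec (G B a)
      fun y IH => do { let i ← IH; H B (Nat.pair a (Nat.pair y i)) } :=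
  ((OracleRec.prec hG hH).comp (OracleRec.pair (.of_partrec Nat.Partrec.some) hF)).of_eq
    fun B a => ext fun s => by simp [Seq.seq]

theorem ORec.nat_rec {f : α → ℕ} {G : Set ℕ → α →. σ} {H : Set ℕ → α × (ℕ × σ) →. σ}
    (hf : Computable f) (hG : ORec G) (hH : ORec H) :
    ORec fun B a => (f a).rec (G B a) fun y IH => IH.bind fun i => H B (a, (y, i)) :=
  (OracleRec.prec' (ORec.of_computable hf) hG hH).of_eq fun B n => by
    rcases e : decode (α := α) n with - | a
    · simp
    · simp only [coe_some, bind_some]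
      induction f a <;> simp_all

end Pool.Agent.FAE
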