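import Pool.Agent.FAE.Decoder

/-! The upper bound on the relative complexity, and the density of `A`. -/

set_option autoImplicit false

namespace Pool.Agent.FAE

open Filter Encodable

variable {g : ℕ → ℕ → Bool} {X : Set ℕ}

theorem upper_bound (hg : Computable₂ g) (hX : ∀ i, ∀ᶠ s in atTop, (g s i = true ↔ i ∈ X))
    {Φ : Set ℕ → List Bool →. List Bool} (hΦ : OptimalOracleMachine Φ) :
    ∃ c : ℕ, ∀ B ⊆ setA g X, B.Infinite → ∀ n,
      complexity (Φ B) (initSeg X n) ≤ ((n / 8 + c : ℕ) : ℕ∞) := by
  have h1 : ∀ j : ℕ, ∃ c : ℕ, ∀ B σ, complexity (Φ B) σ ≤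
      complexity (fun p => (dec g B p).map fun τ => τ.take (τ.length - j)) σ + c := by
    intro j
    refine hΦ.2 (fun B p => (dec g B p).map fun τ => τ.take (τ.length - j)) ?_
    refine (orec_dec hg).map (g := fun q : List Bool × List Bool => q.2.take (q.2.length - j)) ?_
    exact (Primrec.list_take.comp (Primrec.nat_sub.comp (Primrec.list_length.comp Primrec.snd)
      (Primrec.const j)) Primrec.snd).to_comp
  choose C hC using h1
  refine ⟨1 + ∑ j ∈ Finset.range 8, C j, fun B hB hinf n => ?_⟩
  obtain ⟨p, hp, hdec⟩ := dec_spec hX hB hinf ((n + 7) / 8)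
  set R := (n + 7) / 8 with hR
  set j := 8 * R - n with hj
  have hj8 : j < 8 := by omega
  have hmem : initSeg X n ∈ (dec g B p).map fun τ => τ.take (τ.length - j) := by
    rw [Part.mem_map_iff]
    refine ⟨_, hdec, ?_⟩
    rw [initSeg_length, show 8 * R - j = n by omega]
    exact take_initSeg X (by omega)
  have h2 := complexity_le (M := fun p => (dec g B p).map fun τ => τ.take (τ.length - j)) hmem
  rw [hp] at h2
  have hCj : C j ≤ ∑ j ∈ Finset.range 8, C j :=
    Finset.single_le_sum (f := C) (fun _ _ => Nat.zero_le _) (Finset.mem_range.2 hj8)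
  calc complexity (Φ B) (initSeg X n) ≤ _ := hC j B _
    _ ≤ (R : ℕ∞) + (C j : ℕ∞) := by gcongr
    _ = ((R + C j : ℕ) : ℕ∞) := by push_cast; rfl
    _ ≤ _ := by
      norm_cast
      omega

open Classical in
/-- The element of `A` in the window number `w`. -/
theorem exists_mem_window (g : ℕ → ℕ → Bool) (X : Set ℕ) (w : ℕ) :
    ∃ a ∈ setA g X, a / 256 = w := by
  let r : ℕ := Nat.ofBits fun t : Fin 8 => decide (8 * stg g X w + t ∈ X)
  have hr : r < 256 := by
    have := Nat.ofBits_lt_two_pow fun t : Fin 8 => decide (8 * stg g X w + t ∈ X)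
    simpa using this
  refine ⟨256 * w + r, ?_, by omega⟩
  intro t ht
  have e1 : (256 * w + r) / 256 = w := by omega
  rw [e1]
  have e2 : (256 * w + r).testBit t = r.testBit t := by
    have := Nat.testBit_two_pow_mul_add (i := 8) w hr t
    rw [if_pos ht] at this
    simpa using this
  rw [e2]
  have := Nat.testBit_ofBits_lt (fun t : Fin 8 => decide (8 * stg g X w + t ∈ X)) t ht
  exact this

theorem card_setA (g : ℕ → ℕ → Bool) (X : Set ℕ) (n : ℕ) :
    n / 256 ≤ (setA g X ∩ Set.Iio n).ncard := by
  choose a ha hw using exists_mem_window g X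
  have hinj : Function.Injective a := fun v w h => by rw [← hw v, ← hw w, h]
  have h1 : ((Finset.range (n / 256)).image a : Set ℕ) ⊆ setA g X ∩ Set.Iio n := by
    intro x hx
    rw [Finset.coe_image] at hx
    obtain ⟨w, hw', rfl⟩ := hx
    rw [Finset.mem_coe, Finset.mem_range] at hw'
    refine ⟨ha w, ?_⟩
    have := hw w
    show a w < n
    omega
  have h2 := Set.ncard_le_ncard h1 ((Set.finite_Iio n).subset Set.inter_subset_right)
  rw [Set.ncard_coe_finset, Finset.card_image_of_injective _ hinj, Finset.card_range] at h2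
  exact h2

theorem lowerDensity_setA (g : ℕ → ℕ → Bool) (X : Set ℕ) : 0 < lowerDensity (setA g X) := by
  have h1 : (1 / 512 : ℝ) ≤ lowerDensity (setA g X) := by
    unfold lowerDensity
    refine le_liminf_of_le ?_ ?_
    · refine IsBoundedUnder.isCoboundedUnder_ge ⟨1, ?_⟩
      rw [eventually_map]
      refine Eventually.of_forall fun n => ?_
      have : (setA g X ∩ Set.Iio n).ncard ≤ n := by
        have := Set.ncard_le_ncard (Set.inter_subset_right (s := setA g X) (t := Set.Iio n))
          (Set.finite_Iio n)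
        simpa using this
      rcases Nat.eq_zero_or_pos n with rfl | hn
      · simp
      · show ((setA g X ∩ Set.Iio n).ncard : ℝ) / (n : ℝ) ≤ 1
        rw [div_le_one (by exact_mod_cast hn)]
        exact_mod_cast this
    · filter_upwards [eventually_ge_atTop 256] with n hn
      have h2 := card_setA g X n
      rw [le_div_iff₀ (by exact_mod_cast (by omega : 0 < n))]
      have h3 : n ≤ 512 * (n / 256) := by omega
      have h4 : (n : ℝ) ≤ 512 * ((setA g X ∩ Set.Iio n).ncard : ℝ) := by
        exact_mod_cast h3.trans (Nat.mul_le_mul_left 512 h2)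
      linarith
  linarith

end Pool.Agent.FAE
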